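import Mathlib

set_option autoImplicit false
open MvPolynomial Height

namespace Pool.Agent.H.MP_1ed635_nt

theorem int_of_sq (x : ℚ) (n : ℤ) (h : x ^ 2 = n) : ∃ k : ℤ, x = k := by
  have : IsSquare (n : ℚ) := ⟨x, by rw [← h]; ring⟩
  obtain ⟨k, hk⟩ := Rat.isSquare_intCast_iff.1 this
  have h2 : x ^ 2 = (k : ℚ) ^ 2 := by rw [h, hk]; push_cast; ring
  rcases sq_eq_sq_iff_eq_or_eq_neg.1 h2 with h3 | h3
  · exact ⟨k, h3⟩
  · exact ⟨-k, by rw [h3]; push_cast; rfl⟩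

theorem cop (s : ℚ) : IsCoprime s.num (s.den : ℤ) := by
  rw [Int.isCoprime_iff_gcd_eq_one]
  exact s.reduced

theorem num_eq (s : ℚ) : (s.num : ℚ) = s * (s.den : ℚ) := by
  rw [Rat.mul_den_eq_num]

/-- the square class of the first coordinate of a point on `y^2 = u (u^2 + A u + B)` -/
theorem cls (A B : ℤ) (u y : ℚ) (hu : u ≠ 0) (h : y ^ 2 = u * (u ^ 2 + A * u + B)) :
    ∃ (d d' M e N : ℤ) (s : ℚ), Squarefree d ∧ d * d' = B ∧ u = d * s ^ 2 ∧ IsCoprime M e ∧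
      N ^ 2 = d * M ^ 4 + A * M ^ 2 * e ^ 2 + d' * e ^ 4 := by
  obtain ⟨a, k, hk, hsq⟩ := Nat.sq_mul_squarefree (u.num * u.den).natAbs
  obtain ⟨d, hd, hdsq⟩ : ∃ d : ℤ, u.num * u.den = d * (k : ℤ) ^ 2 ∧ Squarefree d := by
    rcases Int.natAbs_eq (u.num * u.den) with h1 | h1
    · refine ⟨a, by rw [h1, ← hk]; push_cast; ring, Int.squarefree_natCast.2 hsq⟩
    · refine ⟨-a, by rw [h1, ← hk]; push_cast; ring, ?_⟩
      rw [← Int.squarefree_natAbs]; simpa using hsq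
  have hden : (u.den : ℚ) ≠ 0 := by exact_mod_cast u.den_nz
  set s : ℚ := k / u.den with hs
  have hus : u = d * s ^ 2 := by
    have h1 : (u.num : ℚ) * u.den = d * (k : ℚ) ^ 2 := by exact_mod_cast hd
    rw [num_eq] at h1
    rw [hs]; field_simp; linarith
  have hs0 : s ≠ 0 := by
    intro h0; apply hu; rw [hus, h0]; ring
  have hd0 : d ≠ 0 := hdsq.ne_zero
  have hco := cop s
  have hM := num_eq s
  obtain ⟨M, e, hco, hM⟩ : ∃ M e : ℤ, IsCoprime M e ∧ (M : ℚ) = s * e :=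
    ⟨s.num, (s.den : ℤ), hco, by rw [hM]; push_cast; rfl⟩
  have h1 : (y * e ^ 2 / s) ^ 2 = ((d * (d ^ 2 * M ^ 4 + A * d * M ^ 2 * e ^ 2 + B * e ^ 4) : ℤ) : ℚ) := by
    push_cast
    rw [hM, div_pow, mul_pow, h, hus]
    field_simp
  obtain ⟨N0, hN0⟩ := int_of_sq _ _ h1
  rw [hN0] at h1
  have h2 : N0 ^ 2 = d * (d ^ 2 * M ^ 4 + A * d * M ^ 2 * e ^ 2 + B * e ^ 4) := by exact_mod_cast h1
  obtain ⟨N, hN⟩ : d ∣ N0 := (hdsq.dvd_pow_iff_dvd two_ne_zero).1 ⟨_, h2⟩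
  have h3 : d * N ^ 2 = d ^ 2 * M ^ 4 + A * d * M ^ 2 * e ^ 2 + B * e ^ 4 := by
    apply mul_left_cancel₀ hd0
    rw [← h2, hN]; ring
  have hde : IsCoprime d e := by
    apply isCoprime_of_prime_dvd
    · rintro ⟨h0, -⟩; exact hd0 h0
    · rintro p hp ⟨d1, hd1⟩ ⟨e1, he1⟩
      have hp0 := hp.ne_zero
      have hnd : ¬ p ∣ d1 := by
        rintro ⟨d2, hd2⟩
        exact hp.not_unit (hdsq p ⟨d2, by rw [hd1, hd2]; ring⟩)
      have h4 : d1 * N ^ 2 = p * (d1 ^ 2 * M ^ 4 + A * p * d1 * M ^ 2 * e1 ^ 2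
          + B * p ^ 2 * e1 ^ 4) := by
        apply mul_left_cancel₀ hp0
        rw [hd1, he1] at h3
        linear_combination h3
      have h5 : p ∣ N := by
        rcases hp.dvd_or_dvd (⟨_, h4⟩ : p ∣ d1 * N ^ 2) with h | h
        · exact absurd h hnd
        · exact hp.dvd_of_dvd_pow h
      obtain ⟨N1, hN1⟩ := h5
      have h6 : d1 ^ 2 * M ^ 4 = p * (d1 * N1 ^ 2 - A * d1 * M ^ 2 * e1 ^ 2
          - B * p * e1 ^ 4) := by
        apply mul_left_cancel₀ hp0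
        rw [hN1] at h4
        linear_combination -h4
      have h7 : p ∣ M := by
        rcases hp.dvd_or_dvd (⟨_, h6⟩ : p ∣ d1 ^ 2 * M ^ 4) with h | h
        · exact absurd (hp.dvd_of_dvd_pow h) hnd
        · exact hp.dvd_of_dvd_pow h
      exact hp.not_unit (hco.isUnit_of_dvd' h7 ⟨e1, he1⟩)
  have h8 : d ∣ B * e ^ 4 := ⟨N ^ 2 - d * M ^ 4 - A * M ^ 2 * e ^ 2, by linear_combination -h3⟩
  obtain ⟨d', hd'⟩ := (hde.pow_right (n := 4)).dvd_of_dvd_mul_right h8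
  refine ⟨d, d', M, e, N, s, hdsq, hd'.symm, hus, hco, ?_⟩
  apply mul_left_cancel₀ hd0
  rw [h3, hd']; ring

theorem con (p q : ℕ) [NeZero q] (hp : 1 < p) (hq : p ∣ q) (A B C : ℤ)
    (h : ∀ X Y Z : ZMod q, A * X ^ 2 + B * Z ^ 2 = C * Y ^ 2 → ZMod.castHom hq (ZMod p) X = 0 ∧
      ZMod.castHom hq (ZMod p) Y = 0 ∧ ZMod.castHom hq (ZMod p) Z = 0) (s t : ℚ) :
    A * s ^ 2 + B ≠ C * t ^ 2 := fun e => by
  have k : ∀ n : ℕ, ∀ X Y Z : ℤ, Z.natAbs = n → A * X ^ 2 + B * Z ^ 2 = C * Y ^ 2 → Z = 0 := by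
    intro n
    induction n using Nat.strong_induction_on with | _ n ih =>
    intro X Y Z hn e
    have := h X Y Z (by exact_mod_cast congrArg (Int.cast (R := ZMod q)) e)
    simp only [map_intCast, ZMod.intCast_zmod_eq_zero_iff_dvd] at this
    obtain ⟨⟨X, rfl⟩, ⟨Y, rfl⟩, Z, rfl⟩ := this
    by_contra z
    have z' := right_ne_zero_of_mul z
    refine z' (ih _ ?_ X Y Z rfl (mul_left_cancel₀ (a := (p : ℤ) ^ 2) (by positivity)
      (by linear_combination e)))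
    rw [← hn, Int.natAbs_mul, Int.natAbs_natCast]
    exact lt_mul_of_one_lt_left (Int.natAbs_pos.2 z') hp
  have := k _ (s.num * t.den) (t.num * s.den) (s.den * t.den) rfl (by
    have : (A * (s.num * t.den) ^ 2 + B * (s.den * t.den) ^ 2 : ℚ) = C * (t.num * s.den) ^ 2 := by
      rw [num_eq, num_eq]; linear_combination (s.den * t.den : ℚ) ^ 2 * e
    exact_mod_cast this)
  simp at this

def S : Set ℚ := {x | ∃ a b c : ℚ, x = a ^ 2 ∧ x + 5 = b ^ 2 ∧ x + 32 = c ^ 2}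

def φ (x : ℚ) : ℚ := (x ^ 2 - 160) ^ 2 / (4 * x * (x + 5) * (x + 32))

theorem cls' (A B m : ℤ) (n : ℕ) (hn : n ≠ 0) (hB : B ∣ m ^ n) (u y : ℚ) (hy : y ≠ 0)
    (h : y ^ 2 = u * (u ^ 2 + A * u + B)) : ∃ (d : ℤ) (s : ℚ), d ∣ m ∧ s ≠ 0 ∧ u = d * s ^ 2 := by
  have hu : u ≠ 0 := by rintro rfl; simp [hy] at h
  obtain ⟨d, d', -, -, -, s, h1, h2, h3, -⟩ := cls A B u y hu h
  exact ⟨d, s, (h1.dvd_pow_iff_dvd hn).1 ((Dvd.intro _ h2).trans hB),
    by rintro rfl; simp [hu] at h3, h3⟩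

theorem tr (x y : ℚ) (hy : y ≠ 0) (h : y ^ 2 = x * (x + 5) * (x + 32)) : ∃ x' ∈ S, φ x' = φ x := by
  obtain ⟨d, s, hd, s0, hs⟩ := cls' 37 160 10 5 (by decide) (by decide) x y hy
    (by push_cast; linear_combination h)
  obtain ⟨e, t, he, t0, ht⟩ := cls' 22 (-135) 15 3 (by decide) (by decide) (x + 5) y hy
    (by push_cast; linear_combination h)
  obtain ⟨f, u, hf, u0, hu⟩ := cls' (-59) 864 6 5 (by decide) (by decide) (x + 32) y hy
    (by push_cast; linear_combination h)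
  have sq : IsSquare (d * e * f) := Rat.isSquare_intCast_iff.1 ⟨y / (s * t * u), by
    push_cast; field_simp; rw [h, hu, ht, hs]; ring⟩
  have f0 : 0 < f := by
    by_contra! c
    have : (f : ℚ) ≤ 0 := by exact_mod_cast c
    have a : x + 32 ≤ 0 := by nlinarith [sq_nonneg u]
    nlinarith [sq_pos_of_ne_zero hy, mul_nonneg (neg_nonneg.2 a)
      (by nlinarith : 0 ≤ x * (x + 5))]
  have q := (by decide +kernel : ∀ d ∈ Finset.Icc (-10 : ℤ) 10, ∀ e ∈ Finset.Icc (-15 : ℤ) 15,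
    ∀ f ∈ Finset.Icc (1 : ℤ) 6, d ∣ 10 → e ∣ 15 → f ∣ 6 → IsSquare (d * e * f) →
      (d, e, f) ∈ [(1, 1, 1), (10, 5, 2), (-5, -15, 3), (-2, -3, 6), (1, 3, 3), (2, 1, 2), (-2, -1, 2),
        (5, 5, 1), (10, 15, 6), (-5, -5, 1), (2, 3, 6), (5, 15, 3), (-1, -3, 3), (-10, -15, 6),
        (-1, -1, 1), (-10, -5, 2)]) d (Finset.mem_Icc.2 (abs_le.1 (Int.le_of_dvd (by decide)
          ((abs_dvd _ _).2 hd)))) e (Finset.mem_Icc.2 (abs_le.1 (Int.le_of_dvd (by decide)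
          ((abs_dvd _ _).2 he)))) f (Finset.mem_Icc.2 ⟨f0, Int.le_of_dvd (by decide) hf⟩) hd he hf sq
  have x0 : x ≠ 0 := by rintro rfl; simp [hy] at h
  have x1 : x + 5 ≠ 0 := fun z => by simp [hy, z] at h
  have x2 : x + 32 ≠ 0 := fun z => by simp [hy, z] at h
  have e1 : d * s ^ 2 + (5 : ℤ) = e * t ^ 2 := by rw [← hs, ← ht]; rfl
  have e2 : d * s ^ 2 + (32 : ℤ) = f * u ^ 2 := by rw [← hs, ← hu]; rfl
  have e3 : e * (t / 3) ^ 2 + (3 : ℤ) = f * (u / 3) ^ 2 := by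
    push_cast; linear_combination (hu - ht) / 9
  simp only [List.mem_cons, Prod.mk.injEq, List.not_mem_nil, or_false] at q
  rcases q with q | q | q | q | q | q | q | q | q | q | q | q | q | q | q | q <;>
    obtain ⟨rfl, rfl, rfl⟩ := q
  · exact ⟨x, ⟨s, t, u, by simpa using hs, by simpa using ht, by simpa using hu⟩, rfl⟩
  · refine ⟨160 / x, ⟨4 / s, u / s, 4 * t / s, ?_, ?_, ?_⟩, ?_⟩
    · rw [hs]; field_simp; norm_num
    · rw [show 160 / x + 5 = 5 * (x + 32) / x by field_simp; ring, hu, hs]; field_simp; norm_num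
    · rw [show 160 / x + 32 = 32 * (x + 5) / x by field_simp; ring, ht, hs]; field_simp; norm_num
    · rw [φ, φ, show 160 / x + 5 = 5 * (x + 32) / x by field_simp; ring,
        show 160 / x + 32 = 32 * (x + 5) / x by field_simp; ring]
      field_simp; ring
  · have a : -5 * (x + 32) / (x + 5) + 5 = -135 / (x + 5) := by field_simp; ring
    have b : -5 * (x + 32) / (x + 5) + 32 = 27 * x / (x + 5) := by field_simp; ring
    refine ⟨-5 * (x + 32) / (x + 5), ⟨u / t, 3 / t, 3 * s / t, ?_, ?_, ?_⟩, ?_⟩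
    · rw [hu, ht]; field_simp; norm_num
    · rw [a, ht]; field_simp; norm_num
    · rw [b, ht, hs]; field_simp; norm_num
    · rw [φ, φ, a, b]; field_simp; ring
  · have a : -32 * (x + 5) / (x + 32) + 5 = -27 * x / (x + 32) := by field_simp; ring
    have b : -32 * (x + 5) / (x + 32) + 32 = 864 / (x + 32) := by field_simp; ring
    refine ⟨-32 * (x + 5) / (x + 32), ⟨4 * t / u, 3 * s / u, 12 / u, ?_, ?_, ?_⟩, ?_⟩
    · rw [hu, ht]; field_simp; norm_num
    · rw [a, hu, hs]; field_simp; norm_num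
    · rw [b, hu]; field_simp; norm_num
    · rw [φ, φ, a, b]; field_simp; ring
  iterate 3 exact absurd e1 (con 5 25 (by decide) (by decide) _ _ _ (by decide +kernel) _ _)
  iterate 3 exact absurd e2 (con 5 25 (by decide) (by decide) _ _ _ (by decide +kernel) _ _)
  iterate 4 exact absurd e1 (con 3 9 (by decide) (by decide) _ _ _ (by decide +kernel) _ _)
  iterate 2 exact absurd e3 (con 3 9 (by decide) (by decide) _ _ _ (by decide +kernel) _ _)

noncomputable def cub (a b c d : ℚ) : MvPolynomial (Fin 2) ℚ :=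
  C a * X 0 ^ 3 + C b * (X 0 ^ 2 * X 1) + C c * (X 0 * X 1 ^ 2) + C d * X 1 ^ 3

theorem ht : ∃ c : ℝ, ∀ x : ℚ, 4 * x * (x + 5) * (x + 32) ≠ 0 →
    c + 4 * logHeight₁ x ≤ logHeight₁ (φ x) := by
  have k : ∀ a b c d, (cub a b c d).IsHomogeneous 3 := fun a b c d =>
    (((isHomogeneous_C_mul_X_pow _ _ _).add (((isHomogeneous_X_pow _ 2).mul
      (isHomogeneous_X _ _)).C_mul _)).add (((isHomogeneous_X _ _).mul
      (isHomogeneous_X_pow _ 2)).C_mul _)).add (isHomogeneous_C_mul_X_pow _ _ _)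
  obtain ⟨c, h⟩ := logHeight_eval_ge' (N := 4) (ι' := Fin 2) (q := fun a => ![![cub 1 (-11840 / 729)
    (-25600 / 243) 0, cub (2960 / 729) (-32000 / 729) (-236800 / 729) (1024000 / 243)],
    ![cub 0 (-1 / 6220800) (-37 / 9331200) (1 / 25600), cub (1 / 24883200) (-37 / 74649600)
    (-1 / 93312) (37 / 233280)]] a.1 a.2) fun ⟨i, j⟩ => by fin_cases i <;> fin_cases j <;> exact k ..
  refine ⟨c, fun x _ => ?_⟩
  have := h ![(X 0 ^ 2 - C 160 * X 1 ^ 2) ^ 2, C 4 * X 0 * X 1 * (X 0 + C 5 * X 1) *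
    (X 0 + C 32 * X 1)] (x := ![x, 1]) fun i => by fin_cases i <;> simp [cub] <;> ring
  rw [φ, logHeight₁_div_eq_logHeight, logHeight₁_eq_logHeight]
  refine this.trans_eq (congrArg _ ?_)
  ext i; fin_cases i <;> simp

theorem half (u : ℚ) (hu : u ∈ S) : ∃ v ∈ S, 4 * v * (v + 5) * (v + 32) ≠ 0 ∧ φ v = u := by
  have nz : ∀ v ∈ S, 4 * v * (v + 5) * (v + 32) ≠ 0 := by
    rintro v ⟨a, b, c, h1, h2, h3⟩
    have : 0 ≤ v := h1 ▸ sq_nonneg a
    have : v ≠ 0 := by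
      rintro rfl
      exact Nat.prime_five.not_isSquare (Rat.isSquare_natCast_iff.1 ⟨b, by simpa [sq] using h2⟩)
    positivity
  obtain ⟨a, b, c, h1, h2, h3⟩ := hu
  have ab : a + b ≠ 0 := fun h => by rw [eq_neg_of_add_eq_zero_left h] at h1; linarith
  have ac : a + c ≠ 0 := fun h => by rw [eq_neg_of_add_eq_zero_left h] at h1; linarith
  have bc : b + c ≠ 0 := fun h => by rw [eq_neg_of_add_eq_zero_left h] at h2; linarith
  have e1 : (a + b) * (a + c) + 5 = (a + b) * (b + c) := by linear_combination h2 - h1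
  have e2 : (a + b) * (a + c) + 32 = (a + c) * (b + c) := by linear_combination h3 - h1
  obtain ⟨v, hv, e⟩ := tr ((a + b) * (a + c)) ((a + b) * (a + c) * (b + c)) (by positivity)
    (by rw [e1, e2]; ring)
  refine ⟨v, hv, nz v hv, e.trans ?_⟩
  rw [φ, e1, e2, show (160 : ℚ) = (b ^ 2 - a ^ 2) * (c ^ 2 - a ^ 2) by
    rw [← h1, ← h2, ← h3]; ring, h1]
  field_simp; ring

theorem finS : S.Finite := by
  obtain ⟨c, hc⟩ := ht
  choose! g h1 h2 h3 using half
  refine (Northcott.finite_le (h := logHeight₁ (K := ℚ)) (-c / 3)).subset fun u hu => ?_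
  have m : ∀ n, g^[n] u ∈ S := fun n => by
    induction n with
    | zero => exact hu
    | succ n ih => rw [Function.iterate_succ_apply']; exact h1 _ ih
  have st : ∀ n, c + 4 * logHeight₁ (g^[n + 1] u) ≤ logHeight₁ (g^[n] u) := fun n => by
    rw [Function.iterate_succ_apply']
    exact (hc _ (h2 _ (m n))).trans_eq (by rw [h3 _ (m n)])
  by_contra! l
  simp only [Set.mem_setOf_eq, not_le] at l
  have lt : ∀ n, logHeight₁ (g^[n + 1] u) < logHeight₁ u := fun n => by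
    induction n with
    | zero => have := st 0; simp only [Function.iterate_zero, id] at this; linarith
    | succ n ih => linarith [st (n + 1)]
  refine (Northcott.finite_le (h := logHeight₁ (K := ℚ)) (logHeight₁ u)).not_infinite
    (Set.infinite_of_injective_forall_mem (f := fun n => g^[n] u) (fun i j e => ?_) fun n => ?_)
  · have k : ∀ i j, g^[i] u = g^[i + (j + 1)] u → False := fun i j e => by
      induction i with
      | zero => exact (lt j).ne' (congrArg _ (by simpa using e))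
      | succ i ih =>
        rw [Nat.add_right_comm, Function.iterate_succ_apply', Function.iterate_succ_apply'] at e
        exact ih ((h3 _ (m _)).symm.trans (e ▸ h3 _ (m _)))
    rcases lt_trichotomy i j with h | h | h
    · obtain ⟨d, rfl⟩ := Nat.exists_eq_add_of_lt h
      exact (k i d e).elim
    · exact h
    · obtain ⟨d, rfl⟩ := Nat.exists_eq_add_of_lt h
      exact (k j d e.symm).elim
  · cases n
    exacts [le_refl (logHeight₁ u), (lt _).le]

theorem finE : {x : ℚ | ∃ y, y ≠ 0 ∧ y ^ 2 = x * (x + 5) * (x + 32)}.Finite := by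
  obtain ⟨c, hc⟩ := ht
  obtain ⟨B, hB⟩ := (finS.image fun v => logHeight₁ (φ v)).bddAbove
  refine (Northcott.finite_le (h := logHeight₁ (K := ℚ)) ((B - c) / 4)).subset fun x ⟨y, hy, h⟩ => ?_
  obtain ⟨v, hv, e⟩ := tr x y hy h
  have := hc x (by rw [show 4 * x * (x + 5) * (x + 32) = 4 * y ^ 2 by rw [h]; ring]; positivity)
  have := hB ⟨v, hv, rfl⟩
  simp only [e, Set.mem_setOf_eq] at this ⊢
  linarith

theorem finV : {v : ℚ | IsSquare (9 * v ^ 4 - 74 * v ^ 2 + 81)}.Finite := by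
  refine ((finE.biUnion fun x _ => (Polynomial.rootSet_finite (Polynomial.X ^ 2 - Polynomial.C
    ((x + 5) * (x + 32) / (9 * x))) ℚ)).insert 0).subset fun v ⟨z, h⟩ => ?_
  by_cases v0 : v = 0
  · exact .inl v0
  have k : (9 * v ^ 2 - 37 + 3 * z) / 2 * ((9 * v ^ 2 - 37 - 3 * z) / 2) = 160 := by
    linear_combination (9 / 4) * h
  obtain ⟨x, hx⟩ : ∃ x, x = (9 * v ^ 2 - 37 + 3 * z) / 2 := ⟨_, rfl⟩
  have x0 : x ≠ 0 := fun e => by rw [← hx, e] at k; simp at k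
  have e : (x + 5) * (x + 32) = 9 * v ^ 2 * x := by rw [hx]; linear_combination -k
  refine .inr (Set.mem_biUnion (x := x) ⟨3 * v * x, by positivity, by rw [mul_assoc x, e]; ring⟩
    (Polynomial.mem_rootSet.2 ⟨Polynomial.X_pow_sub_C_ne_zero two_pos _, ?_⟩))
  simp [e]
  field_simp
  ring

end Pool.Agent.H.MP_1ed635_nt
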